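import Mathlib
import Pool.Agent.Lib.MP_1b99aa_mp.Defs
import Pool.Agent.Lib.MP_1b99aa_mp.Exist

import Pool.Agent.Lib.MP_1b99aa_mp.Maximal

/-!
The rational edge (3,1) carries an edge state curve whose arc stays away from every band crossing.
-/

set_option autoImplicit false

namespace Pool.Agent.Results.MP_1b99aa_mp.Edge31

open Pool.Agent.Lib.MP_1b99aa_mp Filter Topology

theorem continuous_ph : Continuous ph := by
  unfold ph
  have h1 := Real.Angle.continuous_cos
  have h2 := Real.Angle.continuous_sin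
  fun_prop

theorem ph_zero : ph 0 = 1 := by simp [ph]

theorem local_arc : ∃ I0 E0, IsEigenArc vv DD I0 E0 ∧ (0 : Real.Angle) ∈ I0 := by
  let E0 : Real.Angle → ℝ := fun k => smin (T (ph k))
  have hE0 : Continuous E0 := continuous_smin.comp (continuous_T.comp continuous_ph)
  let U : Set Real.Angle := {k | ‖ph k - 1‖ < 1 / 100} ∩ {k | E0 k < 48 / 100}
  have hU : IsOpen U :=
    (isOpen_lt (continuous_ph.sub continuous_const).norm continuous_const).inter
      (isOpen_lt hE0 continuous_const)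
  have h0 : (0 : Real.Angle) ∈ U := by
    refine ⟨?_, ?_⟩
    · simp [ph_zero]
    · change smin (T (ph 0)) < _
      rw [ph_zero]; exact smin_one
  have hV : IsOpen (((↑) : ℝ → Real.Angle) ⁻¹' U) := hU.preimage Real.Angle.continuous_coe
  obtain ⟨ε, hε, hball⟩ := Metric.isOpen_iff.1 hV 0 (by simpa using h0)
  refine ⟨((↑) : ℝ → Real.Angle) '' Metric.ball 0 ε, E0, ⟨?_, ?_, hE0.continuousOn, ?_⟩,
    ⟨0, Metric.mem_ball_self hε, by simp⟩⟩
  · exact QuotientAddGroup.isOpenMap_coe _ Metric.isOpen_ball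
  · exact ((convex_ball (0 : ℝ) ε).isConnected ⟨0, Metric.mem_ball_self hε⟩).image _
      Real.Angle.continuous_coe.continuousOn
  · rintro _ ⟨x, hx, rfl⟩
    obtain ⟨h1, h2⟩ := hball hx
    obtain ⟨a, b, hs, ha, hb, hne⟩ := exists_sol (ph x) h1 h2
    exact eigen_of_sol hs ha hb hne

theorem dirac_cos {κ : ℂ} (h : IsDirac κ) : Real.cos (dot κ vv) = -1 / 2 := by
  unfold IsDirac at h
  have e : dot κ vv = 3 * dot κ gen1 + dot κ gen2 := by
    simp [dot, vv]; ring
  set s := dot κ gen1
  set t := dot κ gen2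
  have h1 := congrArg Complex.re h
  have h2 := congrArg Complex.im h
  simp only [Complex.add_re, Complex.add_im, Complex.exp_ofReal_mul_I_re,
    Complex.exp_ofReal_mul_I_im, Complex.one_re, Complex.one_im, Complex.zero_re,
    Complex.zero_im] at h1 h2
  have q1 := Real.sin_sq_add_cos_sq s
  have q2 := Real.sin_sq_add_cos_sq t
  have c1 : Real.cos s = -1 / 2 := by
    have a1 : Real.cos t = -1 - Real.cos s := by linarith
    have a2 : Real.sin t = - Real.sin s := by linarith
    rw [a1, a2] at q2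
    nlinarith
  have c2 : Real.cos t = -1 / 2 := by linarith
  have s1 : Real.sin s ^ 2 = 3 / 4 := by rw [c1] at q1; linarith
  rw [e, Real.cos_add, Real.cos_three_mul, Real.sin_three_mul, c1, c2]
  have : 3 * Real.sin s - 4 * Real.sin s ^ 3 = 0 := by
    have : Real.sin s ^ 3 = Real.sin s * Real.sin s ^ 2 := by ring
    rw [this, s1]; ring
  rw [this]; norm_num

theorem result :
    ∃ (ν : ℂ) (c : ℝ) (I : Set Real.Angle) (E : Real.Angle → ℝ),
      ν ≠ 0 ∧ dot ν (3 * gen1 + gen2) = 0 ∧
      IsEdgeStateCurve (3 * gen1 + gen2) (edgeSites ν c) I E ∧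
      ∀ κ : ℂ, IsDirac κ → ((dot κ (3 * gen1 + gen2) : ℝ) : Real.Angle) ∉ closure I := by
  obtain ⟨I0, E0, h0, hz⟩ := local_arc
  obtain ⟨I, E, hIE, hI0⟩ := exists_maximal vv DD I0 E0 h0
  refine ⟨nu, 0, I, E, ?_, ?_, hIE, ?_⟩
  · intro h
    have := congrArg Complex.im h
    simp [nu] at this
  · change dot nu vv = 0
    rw [vv_eq, dot_nu]; norm_num
  · intro κ hκ hcl
    have hcos : ∀ k ∈ I, -8 / 17 ≤ k.cos := by
      intro k hk
      by_contra hlt
      push Not at hlt
      have hiv := hIE.1.2.1.isPreconnected.intermediate_value hk (hI0 hz)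
        Real.Angle.continuous_cos.continuousOn
      obtain ⟨k', hk', hc⟩ := hiv (show (-8 / 17 : ℝ) ∈ Set.Icc k.cos (0 : Real.Angle).cos from
        ⟨hlt.le, by rw [Real.Angle.cos_zero]; norm_num⟩)
      exact not_eigen hc _ (hIE.1.2.2.2 k' hk')
    have hclosed : IsClosed {k : Real.Angle | -8 / 17 ≤ k.cos} :=
      isClosed_le continuous_const Real.Angle.continuous_cos
    have h1 := closure_minimal hcos hclosed hcl
    change -8 / 17 ≤ (((dot κ vv : ℝ) : Real.Angle)).cos at h1
    rw [Real.Angle.cos_coe, dirac_cos hκ] at h1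
    norm_num at h1

end Pool.Agent.Results.MP_1b99aa_mp.Edge31
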